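import Pool.Agent.Lib_helper58.MBS.Notions

/-! # Surfaces without maps from tori (MP_45e720_ag): definitions for the statement

The complex manifolds are as in `Pool.Agent.Lib_helper82.BR.Statement`: charted spaces over a
finite-dimensional complex normed space `E` with analytic transition maps. -/

set_option autoImplicit false

open Filter Topology Metric Set
open scoped Manifold ContDiff

namespace Pool.Agent.TorusFree

section

variable (E X : Type) [NormedAddCommGroup E] [NormedSpace ℂ E] [TopologicalSpace X]
  [ChartedSpace E X] [IsManifold 𝓘(ℂ, E) ω X]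

/-- Large discs with bounded derivative contain nearly constant discs: for every compact set `K` of
tangent vectors, every neighbourhood `V` of the diagonal of `X × X` and every radius `r` there is
a radius `R` such that every holomorphic map `f` from the disc of radius `R` to `X` whose
velocity vectors lie in `K` is `V`-constant on some disc of radius `r` contained in the disc of
radius `R`. -/
def HasCalmDiscs : Prop :=
  ∀ K : Set (TangentBundle 𝓘(ℂ, E) X), IsCompact K →
    ∀ V : Set (X × X), IsOpen V → (∀ x, (x, x) ∈ V) → ∀ r : ℝ, ∃ R : ℝ, ∀ f : ℂ → X,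
      (∀ z ∈ ball (0 : ℂ) R, MDifferentiableAt 𝓘(ℂ, ℂ) 𝓘(ℂ, E) f z ∧
        BrodyRigid.velocity (E := E) f z ∈ K) →
      ∃ z : ℂ, ball z r ⊆ ball 0 R ∧ ∀ w ∈ ball z r, (f z, f w) ∈ V

end

end Pool.Agent.TorusFree
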