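import Pool.Agent.Lib_helper66.CYL.Notions

/-! # Surfaces without maps from tori (MP_45e720_ag): definitions for the statement on punctured
discs and annuli

The complex manifolds are as in `Pool.Agent.Lib_helper82.BR.Statement`: charted spaces over a
finite-dimensional complex normed space `E` with analytic transition maps. -/

set_option autoImplicit false

open Filter Topology Metric Set
open scoped Manifold ContDiff

namespace Pool.Agent.TorusFree

section

variable (E X : Type) [NormedAddCommGroup E] [NormedSpace ℂ E] [TopologicalSpace X]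
  [ChartedSpace E X] [IsManifold 𝓘(ℂ, E) ω X]

/-- Long annuli (long cylinders, necks) with bounded derivative are nearly constant in the middle:
for every compact set `K` of tangent vectors and every neighbourhood `V` of the diagonal of
`X × X` there is a number `R` such that every holomorphic map `f` from the annulus
`1 / R < |w| < R` to `X`, for which the tangent vectors `w f'(w)` lie in `K`, is `V`-constant on
the unit circle. -/
def HasThinNecks : Prop :=
  ∀ K : Set (TangentBundle 𝓘(ℂ, E) X), IsCompact K →
    ∀ V : Set (X × X), IsOpen V → (∀ x, (x, x) ∈ V) → ∃ R : ℝ, ∀ f : ℂ → X,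
      (∀ w : ℂ, 1 / R < ‖w‖ → ‖w‖ < R → MDifferentiableAt 𝓘(ℂ, ℂ) 𝓘(ℂ, E) f w ∧
        tangentMap 𝓘(ℂ, ℂ) 𝓘(ℂ, E) f ⟨w, w⟩ ∈ K) →
      ∀ w w' : ℂ, ‖w‖ = 1 → ‖w'‖ = 1 → (f w, f w') ∈ V

end

end Pool.Agent.TorusFree
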