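import Pool.Agent.Lib_helper80.IS.Main

/-! # Torus-free surfaces (MP_45e720_ag): lines in complex tori -/

set_option autoImplicit false
set_option linter.unusedVariables false
set_option linter.unusedSectionVars false

open Filter Topology Metric Set
open scoped Manifold ContDiff

namespace Pool.Agent.TFR

open Pool.Agent.BR

section lattice

variable {V X : Type} [NormedAddCommGroup V] [NormedSpace ℂ V] [FiniteDimensional ℂ V]
  {Λ : Submodule ℤ V} [DiscreteTopology Λ] [IsZLattice ℝ Λ]

/-- bounded representatives modulo a lattice -/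
theorem lat_bdd (Λ : Submodule ℤ V) [DiscreteTopology Λ] [IsZLattice ℝ Λ] :
    ∃ C : ℝ, ∀ v : V, ∃ l ∈ Λ, ‖v + l‖ ≤ C := by
  have hfd : FiniteDimensional ℝ V := FiniteDimensional.complexToReal V
  have : Module.Free ℤ Λ := ZLattice.module_free ℝ Λ
  have : Module.Finite ℤ Λ := ZLattice.module_finite ℝ Λ
  let b := Module.Free.chooseBasis ℤ Λ
  let B := b.ofZLatticeBasis ℝ Λ
  have hspan : Submodule.span ℤ (Set.range B) = Λ := b.ofZLatticeBasis_span ℝ Λ
  refine ⟨∑ i, ‖B i‖, fun v => ⟨-(ZSpan.floor B v : V), ?_, ?_⟩⟩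
  · refine Λ.neg_mem ?_
    have h1 : ((ZSpan.floor B v : Submodule.span ℤ (Set.range B)) : V) ∈
        Submodule.span ℤ (Set.range B) := (ZSpan.floor B v).2
    exact hspan.le h1
  · have h1 := ZSpan.norm_fract_le (K := ℝ) B v
    rw [ZSpan.fract_apply] at h1
    rw [← sub_eq_add_neg]
    exact h1

/-- a map which is constant along all complex lines with a direction in the lattice is constant -/
theorem line_const {φ : V → X} (h : ∀ l ∈ Λ, ∀ (w : V) (s : ℂ), φ (w + s • l) = φ w) :
    ∀ z z', φ z = φ z' := by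
  have key : ∀ v ∈ Submodule.span ℝ (Λ : Set V), ∀ (w : V) (s : ℂ), φ (w + s • v) = φ w := by
    intro v hv
    induction hv using Submodule.span_induction with
    | mem x hx => exact h x hx
    | zero => intro w s; simp
    | add x y _ _ hx hy =>
      intro w s
      rw [smul_add, ← add_assoc, hy, hx]
    | smul a x _ hx =>
      intro w s
      have h1 : s • a • x = (s * (a : ℂ)) • x := by
        rw [mul_smul]
        rfl
      rw [h1]
      exact hx w _
  intro z z'
  have h1 := key (z - z') (by rw [IsZLattice.span_top]; trivial) z' 1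
  rw [one_smul, add_sub_cancel] at h1
  exact h1

/-- linear flows on tori are minimal: if translates of a line in a torus converge to a constant, then
the line is constant -/
theorem line_min [TopologicalSpace X] [T2Space X] {φ : V → X} (hc : Continuous φ)
    (hp : ∀ l ∈ Λ, ∀ z, φ (z + l) = φ z) (w₀ v : V) (z : ℕ → ℂ) (x : X)
    (h : ∀ w : ℂ, Tendsto (fun n => φ (w₀ + (z n + w) • v)) atTop (𝓝 x)) :
    ∀ w : ℂ, φ (w₀ + w • v) = x := by
  have hprop : ProperSpace V := FiniteDimensional.proper ℂ V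
  obtain ⟨C, hC⟩ := lat_bdd Λ
  choose l hl hlC using fun n => hC (z n • v)
  obtain ⟨t, -, ns, hns, ht⟩ := (isCompact_closedBall (0 : V) C).tendsto_subseq
    (x := fun n => z n • v + l n) (fun n => mem_closedBall_zero_iff.2 (hlC n))
  have hA : ∀ w : ℂ, φ (w₀ + t + w • v) = x := by
    intro w
    have h1 : Tendsto (fun k => φ (w₀ + (z (ns k) • v + l (ns k)) + w • v)) atTop
        (𝓝 (φ (w₀ + t + w • v))) := by
      refine (hc.tendsto _).comp ?_
      exact (tendsto_const_nhds.add ht).add tendsto_const_nhds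
    have h2 : Tendsto (fun k => φ (w₀ + (z (ns k) • v + l (ns k)) + w • v)) atTop (𝓝 x) := by
      refine ((h w).comp hns.tendsto_atTop).congr fun k => ?_
      simp only [Function.comp]
      rw [← hp (l (ns k)) (hl _)]
      congr 1
      rw [add_smul]
      abel
    exact tendsto_nhds_unique h1 h2
  intro w
  have h1 : Tendsto (fun k => φ (w₀ + (t - (z (ns k) • v + l (ns k))) + w • v)) atTop
      (𝓝 (φ (w₀ + (t - t) + w • v))) := by
    refine (hc.tendsto _).comp ?_
    exact (tendsto_const_nhds.add (tendsto_const_nhds.sub ht)).add tendsto_const_nhds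
  have h2 : ∀ k, φ (w₀ + (t - (z (ns k) • v + l (ns k))) + w • v) = x := by
    intro k
    rw [← hA (w - z (ns k)), ← hp (l (ns k)) (hl _)]
    congr 1
    rw [sub_smul]
    abel
  simp only [h2, sub_self, add_zero] at h1
  exact (tendsto_nhds_unique h1 tendsto_const_nhds)

/-- uniform continuity of lines in a torus -/
theorem line_uc [MetricSpace X] {φ : V → X} (hc : Continuous φ)
    (hp : ∀ l ∈ Λ, ∀ z, φ (z + l) = φ z) (w₀ v : V) :
    ∀ ε > 0, ∃ δ > 0, ∀ z z' : ℂ, ‖z - z'‖ < δ →
      dist (φ (w₀ + z • v)) (φ (w₀ + z' • v)) < ε := by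
  have hprop : ProperSpace V := FiniteDimensional.proper ℂ V
  obtain ⟨C, hC⟩ := lat_bdd Λ
  intro ε hε
  have huc := (isCompact_closedBall (0 : V) (C + 1)).uniformContinuousOn_of_continuous
    hc.continuousOn
  obtain ⟨δ, hδ, hd⟩ := Metric.uniformContinuousOn_iff.1 huc ε hε
  refine ⟨min δ 1 / (‖v‖ + 1), by positivity, fun z z' hz => ?_⟩
  obtain ⟨l, hl, hlC⟩ := hC (w₀ + z • v)
  have h1 : ‖(w₀ + z • v) - (w₀ + z' • v)‖ < min δ 1 := by
    have h2 : (w₀ + z • v) - (w₀ + z' • v) = (z - z') • v := by rw [sub_smul]; abel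
    rw [h2, norm_smul]
    calc ‖z - z'‖ * ‖v‖ ≤ ‖z - z'‖ * (‖v‖ + 1) := by
          gcongr
          linarith
      _ < min δ 1 / (‖v‖ + 1) * (‖v‖ + 1) := by
          gcongr
      _ = min δ 1 := by field_simp
  have h3 := hd (w₀ + z • v + l) (by
      rw [mem_closedBall_zero_iff]
      linarith) (w₀ + z' • v + l) (by
      rw [mem_closedBall_zero_iff]
      have h4 : w₀ + z' • v + l = (w₀ + z • v + l) - ((w₀ + z • v) - (w₀ + z' • v)) := by abel
      rw [h4]
      have h5 := norm_sub_le (w₀ + z • v + l) ((w₀ + z • v) - (w₀ + z' • v))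
      have h6 := h1.trans_le (min_le_right _ _)
      linarith) (by
      rw [dist_eq_norm, add_sub_add_right_eq_sub]
      exact h1.trans_le (min_le_left _ _))
  rw [hp l hl, hp l hl] at h3
  exact h3

end lattice

section charts

variable {E X : Type} [NormedAddCommGroup E] [NormedSpace ℂ E] [FiniteDimensional ℂ E]
  [MetricSpace X] [CompactSpace X] {A : Cha E X}

/-- uniformly continuous holomorphic curves have bounded derivative -/
theorem bound_of_uc {f : ℂ → X} (hf : ∀ z, A.HolAt f z)
    (hu : ∀ ε > 0, ∃ δ > 0, ∀ z z' : ℂ, ‖z - z'‖ < δ → dist (f z) (f z') < ε) :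
    ∃ C, ∀ z i, f z ∈ A.W i → ‖deriv (A.loc i f) z‖ ≤ C := by
  have key : ∀ i, ∃ C : ℝ, ∀ z, f z ∈ A.W i → ‖deriv (A.loc i f) z‖ ≤ C := by
    intro i
    have hK : IsCompact (closure (A.W i)) := isClosed_closure.isCompact
    obtain ⟨η, hη, hsub⟩ := hK.exists_cthickening_subset_open (A.ch i).open_source (A.W_sub i)
    have hK2 : IsCompact (cthickening η (closure (A.W i))) := isClosed_cthickening.isCompact
    obtain ⟨M, hM⟩ := hK2.exists_bound_of_continuousOn ((A.ch i).continuousOn.mono hsub)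
    obtain ⟨δ, hδ, hd⟩ := hu η hη
    refine ⟨M / (δ / 2), fun z hz => ?_⟩
    have hmem : ∀ w ∈ closedBall z (δ / 2), f w ∈ cthickening η (closure (A.W i)) := by
      intro w hw
      rw [mem_closedBall_iff_norm] at hw
      refine mem_cthickening_of_dist_le (f w) (f z) η _ (subset_closure hz) ?_
      exact (hd w z (by linarith)).le
    refine Complex.norm_deriv_le_of_forall_mem_sphere_norm_le (by positivity) ?_ ?_
    · refine DifferentiableOn.diffContOnCl ?_
      rw [closure_ball z (by positivity)]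
      intro w hw
      exact ((hf w).2 i (hsub (hmem w hw))).differentiableAt.differentiableWithinAt
    · intro w hw
      exact hM _ (hmem w (sphere_subset_closedBall hw))
  choose C hC using key
  have := A.fin
  obtain ⟨M, hM⟩ := Finite.exists_le C
  exact ⟨M, fun z i hz => (hC i z hz).trans (hM i)⟩

end charts

section metric

variable {E X : Type} [NormedAddCommGroup E] [NormedSpace ℂ E] [FiniteDimensional ℂ E]

theorem line_brody_metric [MetricSpace X] [CompactSpace X] [ChartedSpace E X]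
    [IsManifold 𝓘(ℂ, E) ω X] {V : Type} [NormedAddCommGroup V] [NormedSpace ℂ V]
    [FiniteDimensional ℂ V] {Λ : Submodule ℤ V} [DiscreteTopology Λ] [IsZLattice ℝ Λ]
    {φ : V → X} (hφ : MDifferentiable 𝓘(ℂ, V) 𝓘(ℂ, E) φ)
    (hp : ∀ l ∈ Λ, ∀ z, φ (z + l) = φ z) (w₀ v : V) :
    BrodyRigid.IsBrodyCurve (E := E) fun z : ℂ => φ (w₀ + z • v) := by
  obtain ⟨A, hA⟩ := exists_cha (E := E) (X := X)
  have h1 : MDifferentiable 𝓘(ℂ, ℂ) 𝓘(ℂ, E) fun s : ℂ => φ (w₀ + s • v) := by
    refine hφ.comp ?_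
    rw [mdifferentiable_iff_differentiable]
    fun_prop
  have h2 : ∀ z, A.HolAt (fun s : ℂ => φ (w₀ + s • v)) z := (holAt_iff A hA _).1 h1
  obtain ⟨C, hC⟩ := bound_of_uc h2 (line_uc hφ.continuous hp w₀ v)
  exact (BrodyRigid.isBrodyCurve_iff _).2 (brody_of_bound A hA _ h2 C hC)

/-- lines in tori are Brody curves -/
theorem line_brody [t : TopologicalSpace X] [CompactSpace X] [T2Space X] [ChartedSpace E X]
    [IsManifold 𝓘(ℂ, E) ω X] {V : Type} [NormedAddCommGroup V] [NormedSpace ℂ V]
    [FiniteDimensional ℂ V] {Λ : Submodule ℤ V} [DiscreteTopology Λ] [IsZLattice ℝ Λ]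
    {φ : V → X} (hφ : MDifferentiable 𝓘(ℂ, V) 𝓘(ℂ, E) φ)
    (hp : ∀ l ∈ Λ, ∀ z, φ (z + l) = φ z) (w₀ v : V) :
    BrodyRigid.IsBrodyCurve (E := E) fun z : ℂ => φ (w₀ + z • v) := by
  obtain ⟨m, hm, -⟩ := MBS.exists_metric (E := E) (X := X)
  subst hm
  exact line_brody_metric hφ hp w₀ v

end metric

end Pool.Agent.TFR
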