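import Pool.Agent.Lib_helper66.TFR.A
import Pool.Agent.Lib_helper66.TFR.B
import Pool.Agent.Lib_helper66.TFR.Notions
import Pool.Agent.Lib_helper66.CYL.N.TOP
import Pool.Agent.Lib_helper58.MBS.L.FTOP
import Pool.Agent.Lib_helper80.SL.L.B0
import Pool.Agent.Lib_helper80.IS.Irr

/-! # Torus-free surfaces (MP_45e720_ag): calm discs -/

set_option autoImplicit false
set_option linter.unusedVariables false
set_option linter.unusedSectionVars false

open Filter Topology Metric Set
open scoped Manifold ContDiff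

namespace Pool.Agent.TFR

open Pool.Agent.BR Pool.Agent.MBS

section tor

variable {E X : Type} [NormedAddCommGroup E] [NormedSpace ℂ E] [FiniteDimensional ℂ E]

/-- if all Brody curves have constant limits of translates, then there are no torus maps -/
theorem noTorus_of_limit [TopologicalSpace X] [CompactSpace X] [T2Space X] [ChartedSpace E X]
    [IsManifold 𝓘(ℂ, E) ω X]
    (h : ∀ f : ℂ → X, BrodyRigid.IsBrodyCurve (E := E) f →
      ∃ x : X, MinBrody.IsTranslateLimit f (fun _ => x)) : SS.NoTorusMaps E X := by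
  intro V _ _ _ Λ _ _ φ hφ hp z z'
  obtain ⟨x, t, ht⟩ := h _ (line_brody hφ hp z (z' - z))
  have h1 := line_min hφ.continuous hp z (z' - z) t x (fun w => ht w)
  have h2 := h1 0
  have h3 := h1 1
  rw [zero_smul, add_zero] at h2
  rw [one_smul, add_sub_cancel] at h3
  rw [h2, h3]

/-- a Brody curve without constant limits gives an elliptic curve -/
theorem limit_of_noElliptic [TopologicalSpace X] [CompactSpace X] [T2Space X] [ConnectedSpace X]
    [ChartedSpace E X] [IsManifold 𝓘(ℂ, E) ω X] (hX : BrodyRigid.CanonicalAmple E X)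
    (hJ : MinBrody.HasInvariantJetDifferential E X) (hT : BrodyRigid.NoEllipticMaps E X)
    (f : ℂ → X) (hf : BrodyRigid.IsBrodyCurve (E := E) f) :
    ∃ x : X, MinBrody.IsTranslateLimit f (fun _ => x) := by
  by_contra hno
  push Not at hno
  have hnc : MinBrody.UniformlyNonconstant f := by
    intro g hg
    by_contra hcon
    push Not at hcon
    refine hno (g 0) ?_
    have h1 : g = fun _ => g 0 := funext fun z => hcon z 0
    rw [← h1]
    exact hg
  obtain ⟨g, -, hgB, hgn, hgc⟩ := MBS.main_thm hX hJ f hf hnc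
  obtain ⟨h, h1, h2, ⟨z, z', h3⟩, -⟩ := torus_of_alg hX hgB hgn (alg_of_compact hgc)
  exact h3 (hT h h1 h2 z z')

end tor

section metric

variable {E X : Type} [NormedAddCommGroup E] [NormedSpace ℂ E] [FiniteDimensional ℂ E]

theorem calm_of_limit_metric [MetricSpace X] [CompactSpace X] [ChartedSpace E X]
    [IsManifold 𝓘(ℂ, E) ω X]
    (h : ∀ f : ℂ → X, BrodyRigid.IsBrodyCurve (E := E) f →
      ∃ x : X, MinBrody.IsTranslateLimit f (fun _ => x)) : TorusFree.HasCalmDiscs E X := by
  intro K hK V hV hdiag r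
  by_contra hno
  push Not at hno
  obtain ⟨A, hA⟩ := exists_cha (E := E) (X := X)
  choose f hf hbad using fun n : ℕ => hno n
  -- bounds in the charts
  have hC : ∃ C, ∀ n : ℕ, SL.HB A (f n) (ball 0 (n : ℝ)) C := by
    have key : ∀ i, ∃ C : ℝ, ∀ n : ℕ, ∀ z ∈ ball (0 : ℂ) (n : ℝ), f n z ∈ A.W i →
        ‖deriv (A.loc i (f n)) z‖ ≤ C := by
      intro i
      obtain ⟨y, hy⟩ := hA i
      have hsub : K ∩ {p : TangentBundle 𝓘(ℂ, E) X | p.1 ∈ closure (A.W i)} ⊆
          {p | p.1 ∈ (chartAt E y).source} := by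
        intro p hp
        have := A.W_sub i hp.2
        rw [hy] at this
        exact this
      obtain ⟨C, hC⟩ := (vel_compact A i hK).exists_bound_of_continuousOn
        ((vel_cont y).mono hsub)
      refine ⟨C, fun n z hzO hz => ?_⟩
      have hz' : f n z ∈ (chartAt E y).source := by
        have := A.W_sub i (subset_closure hz)
        rw [hy] at this
        exact this
      have h1 := vel_coord y (f n) z (hf n z hzO).1 hz'
      have h2 : A.loc i (f n) = fun w => chartAt E y (f n w) := by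
        funext r
        rw [Cha.loc, hy]
      rw [h2, h1]
      have h3 := hC (BR.velocity (E := E) (f n) z) ⟨(hf n z hzO).2, subset_closure hz⟩
      rw [norm_norm] at h3
      exact h3
    choose C hC using key
    have := A.fin
    obtain ⟨M, hM⟩ := Finite.exists_le C
    refine ⟨M, fun n z hz => ⟨?_, fun i hi => (hC i n z hz hi).trans (hM i)⟩⟩
    exact CYL.top_hol A hA (f n) isOpen_ball (fun t ht => (hf n t ht).1) hz
  obtain ⟨C, hC⟩ := hC
  let U : Ultrafilter ℕ := hyperfilter ℕ
  have hU : (U : Filter ℕ) ≤ atTop := by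
    rw [← Nat.cofinite_eq_atTop]
    exact hyperfilter_le_cofinite
  obtain ⟨g, hg1, hg2⟩ := SL.loc_lim A U f
  have hlarge : ∀ r : ℝ, ∀ᶠ n : ℕ in (U : Filter ℕ), r ≤ (n : ℝ) := fun r =>
    hU (tendsto_natCast_atTop_atTop.eventually_ge_atTop r)
  have hHB : ∀ r : ℝ, SL.HB A g (ball 0 r) C ∧ TendstoUniformlyOn f g U (ball 0 r) := by
    intro r
    refine hg2 r (r + 1) C (by linarith) ?_
    filter_upwards [hlarge (r + 1)] with n hn w hw
    exact hC n w (ball_subset_ball hn hw)
  have hgBF : g ∈ BF A C := by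
    refine ⟨fun w => ?_, fun w => ?_⟩
    · exact ((hHB (‖w‖ + 1)).1 w (by rw [mem_ball_zero_iff]; linarith)).1
    · exact ((hHB (‖w‖ + 1)).1 w (by rw [mem_ball_zero_iff]; linarith)).2
  have hgB : BrodyRigid.IsBrodyCurve (E := E) g :=
    (BrodyRigid.isBrodyCurve_iff g).2 (brody_of_bound A hA g hgBF.1 C hgBF.2)
  obtain ⟨x, t, ht⟩ := h g hgB
  -- a neighbourhood of `x`
  obtain ⟨ε, hε, hεV⟩ : ∃ ε > 0, ∀ a b : X, dist a x < ε → dist b x < ε → (a, b) ∈ V := by
    obtain ⟨ε, hε, h1⟩ := Metric.isOpen_iff.1 hV (x, x) (hdiag x)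
    refine ⟨ε, hε, fun a b ha hb => h1 ?_⟩
    rw [mem_ball, Prod.dist_eq]
    exact max_lt ha hb
  have hxB : (fun _ : ℂ => x) ∈ BF A C := by
    have hcl := bf_closed A C
    refine hcl.mem_of_tendsto (f := fun n => tr (t n) g) (b := atTop) ?_
      (Eventually.of_forall fun n => bf_tr hgBF _)
    rw [tendsto_pi_nhds]
    intro w
    refine (ht w).congr fun n => ?_
    simp only [tr, add_comm]
  have hev := bf_unif (F := atTop) (g := fun n => tr (t n) g) (f := fun _ => x)
    (Eventually.of_forall fun n => bf_tr hgBF _) hxB (by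
      rw [tendsto_pi_nhds]
      intro w
      refine (ht w).congr fun n => ?_
      simp only [tr, add_comm]) (|r| + 1) (ε / 2) (by positivity)
  obtain ⟨n, hn⟩ := hev.exists
  have h3 := (Metric.tendstoUniformlyOn_iff.1 (hHB (‖t n‖ + |r| + 1)).2) (ε / 2) (by positivity)
  obtain ⟨m, hm1, hm2⟩ := (h3.and (hlarge (‖t n‖ + |r| + 1))).exists
  obtain ⟨w, hw, hwV⟩ := hbad m (t n) (by
    intro w hw
    rw [mem_ball_iff_norm] at hw
    rw [mem_ball_zero_iff]
    have h4 : ‖w‖ ≤ ‖w - t n‖ + ‖t n‖ := by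
      have := norm_add_le (w - t n) (t n)
      rwa [sub_add_cancel] at this
    have h5 := le_abs_self r
    linarith)
  refine hwV ?_
  have key : ∀ u : ℂ, ‖u - t n‖ < |r| + 1 → dist (f m u) x < ε := by
    intro u hu
    have h4 := hn (u - t n) hu.le
    simp only [tr, sub_add_cancel] at h4
    have h5 := hm1 u (by
      rw [mem_ball_zero_iff]
      have := norm_add_le (u - t n) (t n)
      rw [sub_add_cancel] at this
      linarith)
    rw [dist_comm] at h5
    calc dist (f m u) x ≤ dist (f m u) (g u) + dist (g u) x := dist_triangle _ _ _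
      _ < ε := by linarith
  refine hεV _ _ (key _ (by rw [sub_self, norm_zero]; positivity)) (key _ ?_)
  rw [mem_ball_iff_norm] at hw
  have h5 := le_abs_self r
  linarith

theorem limit_of_calm_metric [MetricSpace X] [CompactSpace X] [ChartedSpace E X]
    [IsManifold 𝓘(ℂ, E) ω X] (h : TorusFree.HasCalmDiscs E X) (f : ℂ → X)
    (hf : BrodyRigid.IsBrodyCurve (E := E) f) :
    ∃ x : X, MinBrody.IsTranslateLimit f (fun _ => x) := by
  obtain ⟨h1, K, hK, h2⟩ := hf
  have key : ∀ n : ℕ, ∃ z : ℂ, ∀ w ∈ ball z ((n : ℝ) + 1),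
      dist (f z) (f w) < 1 / ((n : ℝ) + 1) := by
    intro n
    obtain ⟨R, hR⟩ := h K hK {p | dist p.1 p.2 < 1 / ((n : ℝ) + 1)}
      (isOpen_lt (by fun_prop) continuous_const) (fun x => by
        simp only [mem_ofPred_eq, dist_self]
        positivity) (n + 1)
    obtain ⟨z, -, hz⟩ := hR f fun z _ => ⟨h1 z, h2 z⟩
    exact ⟨z, hz⟩
  choose z hz using key
  obtain ⟨x, -, ns, hns, hx⟩ := isCompact_univ.tendsto_subseq (x := fun n => f (z n))
    (fun n => mem_univ _)
  refine ⟨x, fun k => z (ns k), fun w => ?_⟩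
  rw [Metric.tendsto_nhds] at hx ⊢
  intro ε hε
  have h3 : Tendsto (fun k => 1 / ((ns k : ℝ) + 1)) atTop (𝓝 0) :=
    tendsto_one_div_add_atTop_nhds_zero_nat.comp hns.tendsto_atTop
  filter_upwards [hx (ε / 2) (by positivity), h3.eventually (gt_mem_nhds (half_pos hε)),
    hns.tendsto_atTop.eventually (tendsto_natCast_atTop_atTop.eventually_ge_atTop ‖w‖)]
    with k hk1 hk2 hk3
  have h4 := hz (ns k) (z (ns k) + w) (by
    rw [mem_ball_iff_norm, add_sub_cancel_left]
    linarith)
  rw [dist_comm] at h4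
  simp only [Function.comp] at hk1
  calc dist (f (z (ns k) + w)) x ≤ dist (f (z (ns k) + w)) (f (z (ns k))) +
        dist (f (z (ns k))) x := dist_triangle _ _ _
    _ < ε := by linarith

theorem calm_of_limit [t : TopologicalSpace X] [CompactSpace X] [T2Space X] [ChartedSpace E X]
    [IsManifold 𝓘(ℂ, E) ω X]
    (h : ∀ f : ℂ → X, BrodyRigid.IsBrodyCurve (E := E) f →
      ∃ x : X, MinBrody.IsTranslateLimit f (fun _ => x)) : TorusFree.HasCalmDiscs E X := by
  obtain ⟨m, hm, -⟩ := exists_metric (E := E) (X := X)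
  subst hm
  exact calm_of_limit_metric h

theorem limit_of_calm [t : TopologicalSpace X] [CompactSpace X] [T2Space X] [ChartedSpace E X]
    [IsManifold 𝓘(ℂ, E) ω X] (h : TorusFree.HasCalmDiscs E X) (f : ℂ → X)
    (hf : BrodyRigid.IsBrodyCurve (E := E) f) :
    ∃ x : X, MinBrody.IsTranslateLimit f (fun _ => x) := by
  obtain ⟨m, hm, -⟩ := exists_metric (E := E) (X := X)
  subst hm
  exact limit_of_calm_metric h f hf

/-- torus-free surfaces and calm discs -/
theorem calm_main [t : TopologicalSpace X] [CompactSpace X] [T2Space X] [ConnectedSpace X]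
    [ChartedSpace E X] [IsManifold 𝓘(ℂ, E) ω X] (hX : BrodyRigid.CanonicalAmple E X)
    (hJ : MinBrody.HasInvariantJetDifferential E X) :
    List.TFAE [BrodyRigid.NoEllipticMaps E X, SS.NoTorusMaps E X,
      ∀ f : ℂ → X, BrodyRigid.IsBrodyCurve (E := E) f →
        ∃ x : X, MinBrody.IsTranslateLimit f (fun _ => x),
      TorusFree.HasCalmDiscs E X] := by
  tfae_have 1 → 3 := limit_of_noElliptic hX hJ
  tfae_have 3 → 4 := calm_of_limit
  tfae_have 4 → 3 := fun h => limit_of_calm h
  tfae_have 3 → 2 := noTorus_of_limit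
  tfae_have 2 → 1 := IS.brody_torus
  tfae_finish

end metric

end Pool.Agent.TFR
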