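import Pool.Agent.Lib_helper66.TFR.E

/-! # Torus-free surfaces (MP_45e720_ag): long annuli, the converse -/

set_option autoImplicit false
set_option linter.unusedVariables false
set_option linter.unusedSectionVars false

open Filter Topology Metric Set
open scoped Manifold ContDiff

namespace Pool.Agent.TFR

open Pool.Agent.BR Pool.Agent.MBS

section metric

variable {E X : Type} [NormedAddCommGroup E] [NormedSpace ℂ E] [FiniteDimensional ℂ E]

theorem per_int {X : Type} {f : ℂ → X} (hf : CYL.Per f) (n : ℤ) (z : ℂ) :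
    f (z + n * CYL.tpi) = f z := by
  have hnat : ∀ (m : ℕ) (z : ℂ), f (z + m * CYL.tpi) = f z := by
    intro m
    induction m with
    | zero => intro z; simp
    | succ m ih =>
      intro z
      rw [← ih z, ← hf (z + m * CYL.tpi)]
      congr 1
      push_cast
      ring
  obtain ⟨m, rfl | rfl⟩ := n.eq_nat_or_neg
  · simpa using hnat m z
  · have h2 := hnat m (z + ((-(m : ℤ) : ℤ) : ℂ) * CYL.tpi)
    rw [← h2]
    congr 1
    push_cast
    ring

theorem whole_exp {X : Type} {f : ℂ → X} (hf : CYL.Per f) (z : ℂ) :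
    f (Complex.log (Complex.exp z)) = f z := by
  obtain ⟨n, hn⟩ := Complex.exp_eq_exp_iff_exists_int.mp
    (Complex.exp_log (Complex.exp_ne_zero z))
  rw [hn]
  exact per_int hf n z

theorem whole_hol [MetricSpace X] [CompactSpace X] {A : Cha E X} {f : ℂ → X}
    (hf : ∀ z, A.HolAt f z) (hper : CYL.Per f) {ξ : ℂ} (hξ : ξ ≠ 0) :
    A.HolAt (fun w => f (Complex.log w)) ξ := by
  have hl : AnalyticAt ℂ (fun w : ℂ => Complex.log ξ + Complex.log (w / ξ)) ξ := by
    have h1 : AnalyticAt ℂ (fun w : ℂ => w / ξ) ξ := analyticAt_id.div analyticAt_const hξ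
    refine analyticAt_const.add (h1.clog ?_)
    rw [div_self hξ]
    exact Complex.one_mem_slitPlane
  have hev : (fun w => f (Complex.log w)) =ᶠ[𝓝 ξ]
      fun w => f (Complex.log ξ + Complex.log (w / ξ)) := by
    filter_upwards [isOpen_ne.mem_nhds hξ] with w hw
    rw [← whole_exp hper (Complex.log ξ + Complex.log (w / ξ)),
      Complex.exp_add, Complex.exp_log hξ, Complex.exp_log (div_ne_zero hw hξ),
      mul_div_cancel₀ _ hξ]
  exact CYL.h6_congr hev (CYL.h6_comp hl (hf _))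

theorem whole_metric [MetricSpace X] [CompactSpace X] [ChartedSpace E X]
    [IsManifold 𝓘(ℂ, E) ω X] (f : ℂ → X) (hf : BrodyRigid.IsBrodyCurve (E := E) f)
    (hper : CYL.Per f) :
    ∃ K : Set (TangentBundle 𝓘(ℂ, E) X), IsCompact K ∧ ∀ w : ℂ, w ≠ 0 →
      MDifferentiableAt 𝓘(ℂ, ℂ) 𝓘(ℂ, E) (fun w => f (Complex.log w)) w ∧
      tangentMap 𝓘(ℂ, ℂ) 𝓘(ℂ, E) (fun w => f (Complex.log w)) ⟨w, w⟩ ∈ K := by
  obtain ⟨A, hA⟩ := exists_cha (E := E) (X := X)
  have hhol := (holAt_iff A hA f).1 hf.1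
  obtain ⟨hf1, K, hK, hfK⟩ := hf
  refine ⟨K, hK, fun w hw0 => ?_⟩
  have hF1 : MDifferentiableAt 𝓘(ℂ, ℂ) 𝓘(ℂ, E) (fun w => f (Complex.log w)) w :=
    CYL.top_mdiff A hA (whole_hol hhol hper hw0)
  refine ⟨hF1, ?_⟩
  have hz : Complex.exp (Complex.log w) = w := Complex.exp_log hw0
  have h1 := tangent_exp (F := fun w => f (Complex.log w)) (z := Complex.log w)
    (by rw [hz]; exact hF1)
  rw [hz] at h1
  rw [← h1]
  have h2 : (fun w => f (Complex.log w)) ∘ Complex.exp = f := by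
    funext z
    exact whole_exp hper z
  rw [h2]
  exact hfK _

theorem whole [t : TopologicalSpace X] [CompactSpace X] [T2Space X] [ChartedSpace E X]
    [IsManifold 𝓘(ℂ, E) ω X] (f : ℂ → X) (hf : BrodyRigid.IsBrodyCurve (E := E) f)
    (hper : CYL.Per f) :
    ∃ K : Set (TangentBundle 𝓘(ℂ, E) X), IsCompact K ∧ ∀ w : ℂ, w ≠ 0 →
      MDifferentiableAt 𝓘(ℂ, ℂ) 𝓘(ℂ, E) (fun w => f (Complex.log w)) w ∧
      tangentMap 𝓘(ℂ, ℂ) 𝓘(ℂ, E) (fun w => f (Complex.log w)) ⟨w, w⟩ ∈ K := by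
  obtain ⟨m, hm, -⟩ := exists_metric (E := E) (X := X)
  subst hm
  exact whole_metric f hf hper

/-- if long annuli are nearly constant then there are no torus maps -/
theorem noTorus_of_necks [TopologicalSpace X] [CompactSpace X] [T2Space X] [ChartedSpace E X]
    [IsManifold 𝓘(ℂ, E) ω X] (h : TorusFree.HasThinNecks E X) : SS.NoTorusMaps E X := by
  intro V _ _ _ Λ _ _ φ hφ hp
  refine line_const_real (Λ := Λ) fun l hl w s => ?_
  obtain ⟨v, hv⟩ : ∃ v : V, v = CYL.tpi⁻¹ • l := ⟨_, rfl⟩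
  have hB := line_brody (E := E) hφ hp w v
  have hvl : CYL.tpi • v = l := by
    rw [hv, smul_smul, mul_inv_cancel₀ tpi_ne, one_smul]
  have hper : CYL.Per fun z : ℂ => φ (w + z • v) := by
    intro z
    have h1 : w + (z + CYL.tpi) • v = (w + z • v) + l := by
      rw [add_smul, hvl]
      abel
    simp only [h1, hp l hl]
  obtain ⟨K, hK, hF⟩ := whole _ hB hper
  by_contra hne
  obtain ⟨R, hR⟩ := h K hK {(φ (w + (s : ℂ) • l), φ w)}ᶜ isClosed_singleton.isOpen_compl
    (fun x hx => by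
      rw [mem_singleton_iff, Prod.mk.injEq] at hx
      exact hne (hx.1.symm.trans hx.2))
  have h1 := hR (fun w' : ℂ => (fun z : ℂ => φ (w + z • v)) (Complex.log w')) (fun w' h1 h2 =>
    hF w' (by
      intro h0
      rw [h0, norm_zero] at h1 h2
      exact absurd h1 (not_lt.2 (by positivity)))) (Complex.exp (s * CYL.tpi)) 1 (by
    rw [Complex.norm_exp]
    simp [CYL.tpi]) norm_one
  have h2 := whole_exp hper (s * CYL.tpi)
  simp only at h1 h2
  rw [h2, mul_smul, hvl, Complex.log_one, zero_smul, add_zero] at h1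
  exact h1 rfl

/-- torus-free surfaces, punctured discs, cylinders and annuli -/
theorem necks_main [t : TopologicalSpace X] [CompactSpace X] [T2Space X] [ConnectedSpace X]
    [ChartedSpace E X] [IsManifold 𝓘(ℂ, E) ω X] (hX : BrodyRigid.CanonicalAmple E X)
    (hJ : MinBrody.HasInvariantJetDifferential E X) :
    List.TFAE [BrodyRigid.NoEllipticMaps E X, SS.NoTorusMaps E X,
      ∀ F : ℂ → X, Cylinder.IsPuncturedBrody E F → Cylinder.ExtendsOverZero E F,
      ∀ f : ℂ → X, BrodyRigid.IsBrodyCurve (E := E) f → ∀ p : ℂ, p ≠ 0 →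
        (∀ z, f (z + p) = f z) → ∀ z z', f z = f z',
      TorusFree.HasThinNecks E X] := by
  have h0 := cyl_main hX hJ
  tfae_have 1 ↔ 2 := h0.out 0 1
  tfae_have 1 ↔ 3 := h0.out 0 2
  tfae_have 1 ↔ 4 := h0.out 0 3
  tfae_have 4 → 5 := necks
  tfae_have 5 → 2 := noTorus_of_necks
  tfae_finish

end metric

end Pool.Agent.TFR
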