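import Pool.Agent.Lib_helper80.IS.Main
import Pool.Agent.Lib_helper66.TOR.C

/-! # Torus-free surfaces (MP_45e720_ag): Brody curves with algebraic image come from tori -/

set_option autoImplicit false
set_option linter.unusedVariables false
set_option linter.unusedSectionVars false

open Filter Topology Metric Set
open scoped Manifold ContDiff

namespace Pool.Agent.TFR

open Pool.Agent.BR Pool.Agent.MBS Pool.Agent.SL Pool.Agent.IS

section charts

variable {E X : Type} [NormedAddCommGroup E] [NormedSpace ℂ E] [FiniteDimensional ℂ E]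
  [MetricSpace X] {A : Cha E X}

/-- holomorphic lifts are continuous -/
theorem cts_of_plift {n : ℕ} {ι : X → PP n} (hι : Plift A n ι) : TOR.CtsP ι := by
  intro x₀
  obtain ⟨G, hG⟩ := hι.lift x₀
  refine ⟨G, ?_, hG.mono fun x hx => hx.1⟩
  obtain ⟨-, h2⟩ := hG.self_of_nhds
  obtain ⟨i, hi⟩ := A.cover x₀
  have hsrc : x₀ ∈ (A.ch i).source := A.W_sub i (subset_closure hi)
  have h3 : ContinuousAt (fun x => (fun ξ => G ((A.ch i).symm ξ)) (A.ch i x)) x₀ :=
    ContinuousAt.comp (f := fun x => A.ch i x) (h2 i hsrc).continuousAt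
      ((A.ch i).continuousAt hsrc)
  refine h3.congr ?_
  filter_upwards [(A.ch i).open_source.mem_nhds hsrc] with x hx
  simp only [(A.ch i).left_inv hx]

end charts

section metric

variable {E X : Type} [NormedAddCommGroup E] [NormedSpace ℂ E] [FiniteDimensional ℂ E]

theorem alg_metric [MetricSpace X] [CompactSpace X] [ConnectedSpace X]
    [ChartedSpace E X] [IsManifold 𝓘(ℂ, E) ω X] (h2 : Module.finrank ℂ E = 2)
    (hX : BrodyRigid.PlaneAmple E X) {h : ℂ → X} (hh : BrodyRigid.IsBrodyCurve (E := E) h)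
    (hne : ∃ z z', h z ≠ h z') (hal : Cylinder.HasAlgebraicImage h) :
    ∃ g : ℂ → X, MDifferentiable 𝓘(ℂ, ℂ) 𝓘(ℂ, E) g ∧ BrodyRigid.DoublyPeriodic g ∧
      (∃ z z', g z ≠ g z') ∧ range h ⊆ range g := by
  obtain ⟨A, hA⟩ := exists_cha (E := E) (X := X)
  obtain ⟨L, k, hk, ⟨F⟩⟩ := exists_frm A hA (BrodyRigid.planeAmple_iff.1 hX)
  let e : Module.Basis (Fin 2) ℂ E := Module.finBasisOfFinrankEq ℂ E h2
  obtain ⟨n, a, ha⟩ := exists_af e F
  obtain ⟨ι, hιP, hιa⟩ := vs_map (af_vs ha)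
  have hι : PImm A n ι := af_imm ha hιa
  have hhA : ∀ z, A.HolAt h z := (holAt_iff A hA h).1 hh.1
  obtain ⟨C, hC⟩ := brody_bound A hA h ((BrodyRigid.isBrodyCurve_iff h).1 hh)
  have hu : ∀ ε > 0, ∃ δ > 0, ∀ z z' : ℂ, ‖z - z'‖ < δ → dist (h z) (h z') < ε := by
    intro ε hε
    obtain ⟨δ, hδ, hd⟩ := equicont A C ε hε
    exact ⟨δ, hδ, hd h hhA hC⟩
  have hc : Continuous h := continuous_iff_continuousAt.2 fun z => (hhA z).1
  have hR : Rel3 (fun z => ι (h z)) :=
    TOR.rel3_of_alg (cts_of_plift hι.plift) hc (unif_lift hι.plift hhA hu) hal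
  obtain ⟨g, hg, h3, h4, h5⟩ := lemT hι hhA hu hne hR
  exact ⟨g, (holAt_iff A hA g).2 hg, h3, h4, h5⟩

/-- a nonconstant Brody curve with algebraic image in a surface with ample canonical bundle lies in
the image of an elliptic curve -/
theorem torus_of_alg [t : TopologicalSpace X] [CompactSpace X] [T2Space X]
    [ConnectedSpace X] [ChartedSpace E X] [IsManifold 𝓘(ℂ, E) ω X]
    (hX : BrodyRigid.CanonicalAmple E X) {h : ℂ → X}
    (hh : BrodyRigid.IsBrodyCurve (E := E) h) (hne : ∃ z z', h z ≠ h z')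
    (hal : Cylinder.HasAlgebraicImage h) :
    ∃ g : ℂ → X, MDifferentiable 𝓘(ℂ, ℂ) 𝓘(ℂ, E) g ∧ BrodyRigid.DoublyPeriodic g ∧
      (∃ z z', g z ≠ g z') ∧ range h ⊆ range g := by
  obtain ⟨m, hm, -⟩ := exists_metric (E := E) (X := X)
  subst hm
  exact alg_metric hX.1 (BrodyRigid.planeAmple_of_canonicalAmple hX) hh hne hal

/-- compact images are algebraic -/
theorem alg_of_compact [TopologicalSpace X] {h : ℂ → X} (hc : MinBrody.HasCompactImage h) :
    Cylinder.HasAlgebraicImage h := by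
  obtain ⟨R, hR⟩ := hc
  exact ⟨∅, Set.finite_empty, fun W _ _ => ⟨R, by rw [hR]; exact subset_union_right⟩⟩

end metric

end Pool.Agent.TFR
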