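import Pool.Agent.Lib_helper66.TFR.C

/-! # Torus-free surfaces (MP_45e720_ag): punctured discs and cylinders -/

set_option autoImplicit false
set_option linter.unusedVariables false
set_option linter.unusedSectionVars false

open Filter Topology Metric Set
open scoped Manifold ContDiff

namespace Pool.Agent.TFR

open Pool.Agent.BR Pool.Agent.MBS

theorem tpi_ne : CYL.tpi ≠ 0 := by
  unfold CYL.tpi
  exact Complex.two_pi_I_ne_zero

section metric

variable {E X : Type} [NormedAddCommGroup E] [NormedSpace ℂ E] [FiniteDimensional ℂ E]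

/-- dilations of Brody curves -/
theorem bf_dil [MetricSpace X] [CompactSpace X] {A : Cha E X} {C : ℝ} {f : ℂ → X} (hf : f ∈ BF A C) (a : ℂ) :
    (fun z => f (a * z)) ∈ BF A (‖a‖ * C) := by
  have hl : ∀ z : ℂ, AnalyticAt ℂ (fun w => a * w) z := fun z =>
    analyticAt_const.mul analyticAt_id
  refine ⟨fun z => CYL.h6_comp (hl z) (hf.1 (a * z)), fun z i hi => ?_⟩
  have h1 : AnalyticAt ℂ (A.loc i f) (a * z) :=
    (hf.1 (a * z)).2 i (A.W_sub i (subset_closure hi))
  have h2 : deriv (A.loc i fun z => f (a * z)) z = a • deriv (A.loc i f) (a * z) := by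
    have h3 : A.loc i (fun z => f (a * z)) = fun z => A.loc i f (a * z) := rfl
    rw [h3]
    have h4 := h1.differentiableAt.hasDerivAt.scomp z ((hasDerivAt_id z).const_mul a)
    have h5 := h4.deriv
    simp only [mul_one] at h5
    exact h5
  rw [h2, norm_smul]
  exact mul_le_mul_of_nonneg_left (hf.2 (a * z) i hi) (norm_nonneg _)

theorem cyl_metric [MetricSpace X] [CompactSpace X] [ConnectedSpace X]
    [ChartedSpace E X] [IsManifold 𝓘(ℂ, E) ω X] (hL : LocLip E (X := X))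
    (hX : BrodyRigid.CanonicalAmple E X)
    (hJ : MinBrody.HasInvariantJetDifferential E X) (f : ℂ → X)
    (hf : BrodyRigid.IsBrodyCurve (E := E) f) (p : ℂ) (hp : p ≠ 0) (hper : ∀ z, f (z + p) = f z)
    (hne : ∃ z z', f z ≠ f z') :
    ∃ g : ℂ → X, BrodyRigid.IsBrodyCurve (E := E) g ∧ (∃ z z', g z ≠ g z') ∧
        Cylinder.HasAlgebraicImage g := by
  obtain ⟨A, hA⟩ := exists_cha (E := E) (X := X)
  have hX' := BrodyRigid.canonicalAmple_iff.1 hX
  obtain ⟨N, k', hk', ⟨Fr⟩⟩ := exists_frm A hA (planeAmple_of_canonicalAmple hX')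
  obtain ⟨lam, L, hB⟩ := exists_blip hL A hA
  obtain ⟨k, m, P, Q, hJ'⟩ := exists_jd A hA hJ
  obtain ⟨C, hC⟩ := brody_bound A hA f ((BrodyRigid.isBrodyCurve_iff f).1 hf)
  have hfB : f ∈ BF A C := ⟨(holAt_iff A hA f).1 hf.1, hC⟩
  have hfD := bf_dil hfB (p / CYL.tpi)
  have hP : CYL.Per fun z => f (p / CYL.tpi * z) := by
    intro z
    have h1 : p / CYL.tpi * (z + CYL.tpi) = p / CYL.tpi * z + p := by
      rw [mul_add, div_mul_cancel₀ _ tpi_ne]
    simp only [h1, hper]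
  have hn : CYL.NCst fun z => f (p / CYL.tpi * z) := by
    obtain ⟨z, z', h⟩ := hne
    have h1 : ∀ z, p / CYL.tpi * (CYL.tpi / p * z) = z := by
      intro z
      field_simp [tpi_ne]
    exact ⟨CYL.tpi / p * z, CYL.tpi / p * z', by simp only [h1]; exact h⟩
  obtain ⟨g, hg, hgn, hgs⟩ := CYL.top_cyl hX.1 hB Fr hk' hJ' hfD hP hn
  have hgB : g ∈ BF A (‖p / CYL.tpi‖ * C) := by
    have h1 : closure (range fun w => tr w fun z => f (p / CYL.tpi * z)) ⊆
        BF A (‖p / CYL.tpi‖ * C) :=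
      closure_minimal (by rintro _ ⟨w, rfl⟩; exact bf_tr hfD w) (bf_closed A _)
    exact h1 hg
  exact ⟨g, (BrodyRigid.isBrodyCurve_iff g).2 (brody_of_bound A hA g hgB.1 _ hgB.2), hgn, hgs⟩

/-- a nonconstant Brody curve with a period gives an elliptic curve -/
theorem cyl_const [t : TopologicalSpace X] [CompactSpace X] [T2Space X] [ConnectedSpace X]
    [ChartedSpace E X] [IsManifold 𝓘(ℂ, E) ω X] (hX : BrodyRigid.CanonicalAmple E X)
    (hJ : MinBrody.HasInvariantJetDifferential E X) (hT : BrodyRigid.NoEllipticMaps E X)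
    (f : ℂ → X) (hf : BrodyRigid.IsBrodyCurve (E := E) f) (p : ℂ) (hp : p ≠ 0)
    (hper : ∀ z, f (z + p) = f z) : ∀ z z', f z = f z' := by
  by_contra hno
  push Not at hno
  have h1 : ∃ g : ℂ → X, BrodyRigid.IsBrodyCurve (E := E) g ∧ (∃ z z', g z ≠ g z') ∧
        Cylinder.HasAlgebraicImage g := by
    obtain ⟨m, hm, hL⟩ := exists_metric (E := E) (X := X)
    subst hm
    exact cyl_metric hL hX hJ f hf p hp hper hno
  obtain ⟨g, hgB, hgn, hga⟩ := h1
  obtain ⟨h, h1, h2, ⟨z, z', h3⟩, -⟩ := torus_of_alg hX hgB hgn hga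
  exact h3 (hT h h1 h2 z z')

/-- a Brody map of the punctured disc without extension gives an elliptic curve -/
theorem disc_ext [t : TopologicalSpace X] [CompactSpace X] [T2Space X] [ConnectedSpace X]
    [ChartedSpace E X] [IsManifold 𝓘(ℂ, E) ω X] (hX : BrodyRigid.CanonicalAmple E X)
    (hJ : MinBrody.HasInvariantJetDifferential E X) (hT : BrodyRigid.NoEllipticMaps E X)
    (F : ℂ → X) (hF : Cylinder.IsPuncturedBrody E F) : Cylinder.ExtendsOverZero E F := by
  rcases CYL.disc_main hX hJ F hF with h | ⟨g, -, hgB, hgn, hga⟩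
  · exact h
  · obtain ⟨h, h1, h2, ⟨z, z', h3⟩, -⟩ := torus_of_alg hX hgB hgn hga
    exact absurd (hT h h1 h2 z z') h3

/-- the punctured Brody map of a Brody curve with the period `2 π i` -/
theorem punct_metric [MetricSpace X] [CompactSpace X] [ChartedSpace E X]
    [IsManifold 𝓘(ℂ, E) ω X] (f : ℂ → X) (hf : BrodyRigid.IsBrodyCurve (E := E) f)
    (hper : CYL.Per f) :
    ∃ F : ℂ → X, Cylinder.IsPuncturedBrody E F ∧ ∀ z : ℂ, z.re < 0 → F (Complex.exp z) = f z := by
  obtain ⟨A, hA⟩ := exists_cha (E := E) (X := X)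
  obtain ⟨C, hC⟩ := brody_bound A hA f ((BrodyRigid.isBrodyCurve_iff f).1 hf)
  have hhol := (holAt_iff A hA f).1 hf.1
  have hHB : CYL.HB A C f := ⟨fun z _ => hhol z, fun z _ i hi => hC z i hi, fun z _ => hper z⟩
  obtain ⟨hf1, K, hK, hfK⟩ := hf
  have hexp : ∀ z : ℂ, z.re < 0 → CYL.ext f (f 0) (Complex.exp z) = f z := fun z hz =>
    CYL.ext_half_exp_pr hHB (f 0) z hz
  refine ⟨CYL.ext f (f 0), ⟨fun w hw0 hw1 => ?_, K, hK, fun w hw0 hw1 => ?_⟩, hexp⟩
  · exact CYL.top_mdiff A hA (CYL.h6_punct hHB (f 0) hw0 hw1)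
  · obtain ⟨F, hFdef⟩ : ∃ F, F = CYL.ext f (f 0) := ⟨_, rfl⟩
    have hF1 : MDifferentiableAt 𝓘(ℂ, ℂ) 𝓘(ℂ, E) F w := by
      rw [hFdef]
      exact CYL.top_mdiff A hA (CYL.h6_punct hHB (f 0) hw0 hw1)
    rw [← hFdef]
    rw [← hFdef] at hexp
    have hz : Complex.exp (Complex.log w) = w := Complex.exp_log hw0
    obtain ⟨z, hzdef⟩ : ∃ z, z = Complex.log w := ⟨_, rfl⟩
    rw [← hzdef] at hz
    have hre : z.re < 0 := by
      rw [hzdef, Complex.log_re]
      exact Real.log_neg (norm_pos_iff.2 hw0) hw1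
    have h3 : MDifferentiableAt 𝓘(ℂ, ℂ) 𝓘(ℂ, ℂ) Complex.exp z :=
      Complex.differentiableAt_exp.mdifferentiableAt
    rw [← hz] at hF1
    have h7 := tangentMap_comp_at (I := 𝓘(ℂ, ℂ)) (I' := 𝓘(ℂ, ℂ)) (I'' := 𝓘(ℂ, E))
      (⟨z, (1 : ℂ)⟩ : TangentBundle 𝓘(ℂ, ℂ) ℂ) (g := F) (f := Complex.exp) hF1 h3
    have h8 : tangentMap 𝓘(ℂ, ℂ) 𝓘(ℂ, ℂ) Complex.exp (⟨z, (1 : ℂ)⟩ : TangentBundle 𝓘(ℂ, ℂ) ℂ) =
        ⟨Complex.exp z, Complex.exp z⟩ := by
      simp only [tangentMap, mfderiv_eq_fderiv]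
      congr 1
      have h9 : fderiv ℂ Complex.exp z 1 = Complex.exp z := by
        rw [fderiv_apply_one_eq_deriv, Complex.deriv_exp]
      exact h9
    rw [h8, hz] at h7
    rw [← h7]
    have hev : F ∘ Complex.exp =ᶠ[𝓝 z] f := by
      filter_upwards [(isOpen_lt Complex.continuous_re continuous_const).mem_nhds hre] with u hu
      exact hexp u hu
    have h10 : tangentMap 𝓘(ℂ, ℂ) 𝓘(ℂ, E) (F ∘ Complex.exp) ⟨z, (1 : ℂ)⟩ =
        tangentMap 𝓘(ℂ, ℂ) 𝓘(ℂ, E) f ⟨z, (1 : ℂ)⟩ := by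
      simp only [tangentMap]
      rw [hev.mfderiv_eq, hev.eq_of_nhds]
    rw [h10]
    exact hfK z

theorem punct [t : TopologicalSpace X] [CompactSpace X] [T2Space X] [ChartedSpace E X]
    [IsManifold 𝓘(ℂ, E) ω X] (f : ℂ → X) (hf : BrodyRigid.IsBrodyCurve (E := E) f)
    (hper : CYL.Per f) :
    ∃ F : ℂ → X, Cylinder.IsPuncturedBrody E F ∧ ∀ z : ℂ, z.re < 0 → F (Complex.exp z) = f z := by
  obtain ⟨m, hm, -⟩ := exists_metric (E := E) (X := X)
  subst hm
  exact punct_metric f hf hper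

/-- if Brody maps of the punctured disc extend then there are no torus maps -/
theorem noTorus_of_ext [TopologicalSpace X] [CompactSpace X] [T2Space X] [ChartedSpace E X]
    [IsManifold 𝓘(ℂ, E) ω X]
    (h : ∀ F : ℂ → X, Cylinder.IsPuncturedBrody E F → Cylinder.ExtendsOverZero E F) :
    SS.NoTorusMaps E X := by
  intro V _ _ _ Λ _ _ φ hφ hp
  refine line_const (Λ := Λ) fun l hl w s => ?_
  obtain ⟨v, hv⟩ : ∃ v : V, v = CYL.tpi⁻¹ • l := ⟨_, rfl⟩
  have hB := line_brody (E := E) hφ hp w v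
  have hper : CYL.Per fun z : ℂ => φ (w + z • v) := by
    intro z
    have h1 : w + (z + CYL.tpi) • v = (w + z • v) + l := by
      have h2 : CYL.tpi • v = l := by
        rw [hv, smul_smul, mul_inv_cancel₀ tpi_ne, one_smul]
      rw [add_smul, h2]
      abel
    simp only [h1, hp l hl]
  obtain ⟨F, hF, hexp⟩ := punct _ hB hper
  obtain ⟨F', hF1, hF2⟩ := h F hF
  have hlim : ∀ u : ℂ, Tendsto (fun n : ℕ => φ (w + (-(n : ℂ) + u) • v)) atTop (𝓝 (F' 0)) := by
    intro u
    have h1 : Tendsto (fun n : ℕ => Complex.exp (-(n : ℂ) + u)) atTop (𝓝 0) := by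
      rw [tendsto_zero_iff_norm_tendsto_zero]
      simp only [Complex.norm_exp, Complex.add_re, Complex.neg_re, Complex.natCast_re]
      refine Real.tendsto_exp_atBot.comp ?_
      exact tendsto_atBot_add_const_right _ _
        (tendsto_neg_atTop_atBot.comp tendsto_natCast_atTop_atTop)
    have h2 : ContinuousAt F' 0 := (hF1 0 (by simp)).continuousAt
    refine (h2.tendsto.comp h1).congr' ?_
    filter_upwards [tendsto_natCast_atTop_atTop.eventually_gt_atTop u.re] with n hn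
    have h3 : (-(n : ℂ) + u).re < 0 := by
      simp only [Complex.add_re, Complex.neg_re, Complex.natCast_re]
      linarith
    have h4 : ‖Complex.exp (-(n : ℂ) + u)‖ < 1 := by
      rw [Complex.norm_exp]
      exact Real.exp_lt_one_iff.2 h3
    simp only [Function.comp]
    rw [hF2 _ (Complex.exp_ne_zero _) h4, hexp _ h3]
  have h5 := line_min hφ.continuous hp w v (fun n => -(n : ℂ)) (F' 0) hlim
  have h6 := h5 0
  have h7 := h5 (s * CYL.tpi)
  rw [zero_smul, add_zero] at h6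
  rw [hv, smul_smul, mul_assoc, mul_inv_cancel₀ tpi_ne, mul_one] at h7
  rw [h6, h7]

/-- if Brody curves with a period are constant then there are no torus maps -/
theorem noTorus_of_per [TopologicalSpace X] [CompactSpace X] [T2Space X] [ChartedSpace E X]
    [IsManifold 𝓘(ℂ, E) ω X]
    (h : ∀ f : ℂ → X, BrodyRigid.IsBrodyCurve (E := E) f → ∀ p : ℂ, p ≠ 0 →
      (∀ z, f (z + p) = f z) → ∀ z z', f z = f z') :
    SS.NoTorusMaps E X := by
  intro V _ _ _ Λ _ _ φ hφ hp
  refine line_const (Λ := Λ) fun l hl w s => ?_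
  have h1 := h _ (line_brody (E := E) hφ hp w l) 1 one_ne_zero (fun z => by
    have h1 : w + (z + 1) • l = (w + z • l) + l := by
      rw [add_smul, one_smul]
      abel
    rw [h1, hp l hl]) s 0
  simpa using h1

/-- torus-free surfaces, punctured discs and cylinders -/
theorem cyl_main [t : TopologicalSpace X] [CompactSpace X] [T2Space X] [ConnectedSpace X]
    [ChartedSpace E X] [IsManifold 𝓘(ℂ, E) ω X] (hX : BrodyRigid.CanonicalAmple E X)
    (hJ : MinBrody.HasInvariantJetDifferential E X) :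
    List.TFAE [BrodyRigid.NoEllipticMaps E X, SS.NoTorusMaps E X,
      ∀ F : ℂ → X, Cylinder.IsPuncturedBrody E F → Cylinder.ExtendsOverZero E F,
      ∀ f : ℂ → X, BrodyRigid.IsBrodyCurve (E := E) f → ∀ p : ℂ, p ≠ 0 →
        (∀ z, f (z + p) = f z) → ∀ z z', f z = f z'] := by
  tfae_have 1 → 3 := disc_ext hX hJ
  tfae_have 1 → 4 := cyl_const hX hJ
  tfae_have 3 → 2 := noTorus_of_ext
  tfae_have 4 → 2 := noTorus_of_per
  tfae_have 2 → 1 := IS.brody_torus
  tfae_finish

end metric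

end Pool.Agent.TFR
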