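import Pool.Agent.Lib_helper66.TFR.D
import Pool.Agent.Lib_helper66.TFR.NotionsP

/-! # Torus-free surfaces (MP_45e720_ag): long annuli -/

set_option autoImplicit false
set_option linter.unusedVariables false
set_option linter.unusedSectionVars false

open Filter Topology Metric Set
open scoped Manifold ContDiff

namespace Pool.Agent.TFR

open Pool.Agent.BR Pool.Agent.MBS

section lattice

variable {V X : Type} [NormedAddCommGroup V] [NormedSpace ℂ V] [FiniteDimensional ℂ V]
  {Λ : Submodule ℤ V} [DiscreteTopology Λ] [IsZLattice ℝ Λ]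

/-- a map which is constant along all real lines with a direction in the lattice is constant -/
theorem line_const_real {φ : V → X} (h : ∀ l ∈ Λ, ∀ (w : V) (s : ℝ), φ (w + (s : ℂ) • l) = φ w) :
    ∀ z z', φ z = φ z' := by
  have key : ∀ v ∈ Submodule.span ℝ (Λ : Set V), ∀ (w : V) (s : ℝ), φ (w + (s : ℂ) • v) = φ w := by
    intro v hv
    induction hv using Submodule.span_induction with
    | mem x hx => exact h x hx
    | zero => intro w s; simp
    | add x y _ _ hx hy =>
      intro w s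
      rw [smul_add, ← add_assoc, hy, hx]
    | smul a x _ hx =>
      intro w s
      have h1 : (s : ℂ) • a • x = ((s * a : ℝ) : ℂ) • x := by
        rw [Complex.ofReal_mul, mul_smul]
        rfl
      rw [h1]
      exact hx w _
  intro z z'
  have h1 := key (z - z') (by rw [IsZLattice.span_top]; trivial) z' 1
  rw [Complex.ofReal_one, one_smul, add_sub_cancel] at h1
  exact h1

end lattice

section metric

variable {E X : Type} [NormedAddCommGroup E] [NormedSpace ℂ E] [FiniteDimensional ℂ E]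

/-- velocities after the exponential function -/
theorem tangent_exp [TopologicalSpace X] [ChartedSpace E X] {F : ℂ → X} {z : ℂ}
    (hF : MDifferentiableAt 𝓘(ℂ, ℂ) 𝓘(ℂ, E) F (Complex.exp z)) :
    BR.velocity (E := E) (F ∘ Complex.exp) z =
      tangentMap 𝓘(ℂ, ℂ) 𝓘(ℂ, E) F ⟨Complex.exp z, Complex.exp z⟩ := by
  have h3 : MDifferentiableAt 𝓘(ℂ, ℂ) 𝓘(ℂ, ℂ) Complex.exp z :=
    Complex.differentiableAt_exp.mdifferentiableAt
  have h7 := tangentMap_comp_at (I := 𝓘(ℂ, ℂ)) (I' := 𝓘(ℂ, ℂ)) (I'' := 𝓘(ℂ, E))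
    (⟨z, (1 : ℂ)⟩ : TangentBundle 𝓘(ℂ, ℂ) ℂ) (g := F) (f := Complex.exp) hF h3
  have h8 : tangentMap 𝓘(ℂ, ℂ) 𝓘(ℂ, ℂ) Complex.exp (⟨z, (1 : ℂ)⟩ : TangentBundle 𝓘(ℂ, ℂ) ℂ) =
      ⟨Complex.exp z, Complex.exp z⟩ := by
    simp only [tangentMap, mfderiv_eq_fderiv]
    congr 1
    have h9 : fderiv ℂ Complex.exp z 1 = Complex.exp z := by
      rw [fderiv_apply_one_eq_deriv, Complex.deriv_exp]
    exact h9
  rw [h8] at h7
  exact h7

theorem necks_metric [MetricSpace X] [CompactSpace X] [ChartedSpace E X]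
    [IsManifold 𝓘(ℂ, E) ω X]
    (h : ∀ f : ℂ → X, BrodyRigid.IsBrodyCurve (E := E) f → ∀ p : ℂ, p ≠ 0 →
      (∀ z, f (z + p) = f z) → ∀ z z', f z = f z') : TorusFree.HasThinNecks E X := by
  intro K hK V hV hdiag
  by_contra hno
  push Not at hno
  obtain ⟨A, hA⟩ := exists_cha (E := E) (X := X)
  choose f hf u u' hu hu' hbad using fun n : ℕ => hno (Real.exp n)
  obtain ⟨g, hgdef⟩ : ∃ g : ℕ → ℂ → X, g = fun n z => f n (Complex.exp z) := ⟨_, rfl⟩
  have hstrip : ∀ n : ℕ, ∀ z ∈ ball (0 : ℂ) (n : ℝ), 1 / Real.exp n < ‖Complex.exp z‖ ∧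
      ‖Complex.exp z‖ < Real.exp n := by
    intro n z hz
    rw [mem_ball_zero_iff] at hz
    rw [Complex.norm_exp, one_div, ← Real.exp_neg, Real.exp_lt_exp, Real.exp_lt_exp]
    have h1 := Complex.abs_re_le_norm z
    rw [abs_le] at h1
    constructor <;> linarith [h1.1, h1.2]
  have hgm : ∀ n : ℕ, ∀ z ∈ ball (0 : ℂ) (n : ℝ), MDifferentiableAt 𝓘(ℂ, ℂ) 𝓘(ℂ, E) (g n) z ∧
      BR.velocity (E := E) (g n) z ∈ K := by
    intro n z hz
    obtain ⟨h1, h2⟩ := hf n (Complex.exp z) (hstrip n z hz).1 (hstrip n z hz).2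
    have h3 : MDifferentiableAt 𝓘(ℂ, ℂ) 𝓘(ℂ, ℂ) Complex.exp z :=
      Complex.differentiableAt_exp.mdifferentiableAt
    have h4 : g n = f n ∘ Complex.exp := by rw [hgdef]; rfl
    rw [h4]
    refine ⟨h1.comp z h3, ?_⟩
    rw [tangent_exp h1]
    exact h2
  -- bounds in the charts
  have hC : ∃ C, ∀ n : ℕ, SL.HB A (g n) (ball 0 (n : ℝ)) C := by
    have key : ∀ i, ∃ C : ℝ, ∀ n : ℕ, ∀ z ∈ ball (0 : ℂ) (n : ℝ), g n z ∈ A.W i →
        ‖deriv (A.loc i (g n)) z‖ ≤ C := by
      intro i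
      obtain ⟨y, hy⟩ := hA i
      have hsub : K ∩ {p : TangentBundle 𝓘(ℂ, E) X | p.1 ∈ closure (A.W i)} ⊆
          {p | p.1 ∈ (chartAt E y).source} := by
        intro p hp
        have := A.W_sub i hp.2
        rw [hy] at this
        exact this
      obtain ⟨C, hC⟩ := (vel_compact A i hK).exists_bound_of_continuousOn
        ((vel_cont y).mono hsub)
      refine ⟨C, fun n z hzO hz => ?_⟩
      have hz' : g n z ∈ (chartAt E y).source := by
        have := A.W_sub i (subset_closure hz)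
        rw [hy] at this
        exact this
      have h1 := vel_coord y (g n) z (hgm n z hzO).1 hz'
      have h2 : A.loc i (g n) = fun w => chartAt E y (g n w) := by
        funext r
        rw [Cha.loc, hy]
      rw [h2, h1]
      have h3 := hC (BR.velocity (E := E) (g n) z) ⟨(hgm n z hzO).2, subset_closure hz⟩
      rw [norm_norm] at h3
      exact h3
    choose C hC using key
    have := A.fin
    obtain ⟨M, hM⟩ := Finite.exists_le C
    refine ⟨M, fun n z hz => ⟨?_, fun i hi => (hC i n z hz hi).trans (hM i)⟩⟩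
    exact CYL.top_hol A hA (g n) isOpen_ball (fun t ht => (hgm n t ht).1) hz
  obtain ⟨C, hC⟩ := hC
  let U : Ultrafilter ℕ := hyperfilter ℕ
  have hU : (U : Filter ℕ) ≤ atTop := by
    rw [← Nat.cofinite_eq_atTop]
    exact hyperfilter_le_cofinite
  obtain ⟨G, hG1, hG2⟩ := SL.loc_lim A U g
  have hlarge : ∀ r : ℝ, ∀ᶠ n : ℕ in (U : Filter ℕ), r ≤ (n : ℝ) := fun r =>
    hU (tendsto_natCast_atTop_atTop.eventually_ge_atTop r)
  have hHB : ∀ r : ℝ, SL.HB A G (ball 0 r) C ∧ TendstoUniformlyOn g G U (ball 0 r) := by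
    intro r
    refine hG2 r (r + 1) C (by linarith) ?_
    filter_upwards [hlarge (r + 1)] with n hn w hw
    exact hC n w (ball_subset_ball hn hw)
  have hGBF : G ∈ BF A C := by
    refine ⟨fun w => ?_, fun w => ?_⟩
    · exact ((hHB (‖w‖ + 1)).1 w (by rw [mem_ball_zero_iff]; linarith)).1
    · exact ((hHB (‖w‖ + 1)).1 w (by rw [mem_ball_zero_iff]; linarith)).2
  have hGB : BrodyRigid.IsBrodyCurve (E := E) G :=
    (BrodyRigid.isBrodyCurve_iff G).2 (brody_of_bound A hA G hGBF.1 C hGBF.2)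
  have hGper : ∀ z, G (z + CYL.tpi) = G z := by
    intro z
    refine tendsto_nhds_unique (hG1 (z + CYL.tpi)) ((hG1 z).congr fun n => ?_)
    rw [hgdef]
    simp only [CYL.tpi, Complex.exp_add, Complex.exp_two_pi_mul_I, mul_one]
  have hGc := h G hGB CYL.tpi tpi_ne hGper
  obtain ⟨x, hx⟩ : ∃ x, x = G 0 := ⟨_, rfl⟩
  obtain ⟨ε, hε, hεV⟩ : ∃ ε > 0, ∀ a b : X, dist a x < ε → dist b x < ε → (a, b) ∈ V := by
    obtain ⟨ε, hε, h1⟩ := Metric.isOpen_iff.1 hV (x, x) (hdiag x)
    refine ⟨ε, hε, fun a b ha hb => h1 ?_⟩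
    rw [mem_ball, Prod.dist_eq]
    exact max_lt ha hb
  have h3 := (Metric.tendstoUniformlyOn_iff.1 (hHB (Real.pi + 1)).2) ε hε
  obtain ⟨m, hm⟩ := h3.exists
  have key : ∀ w : ℂ, ‖w‖ = 1 → dist (f m w) x < ε := by
    intro w hw
    have hw0 : w ≠ 0 := by
      intro h0
      rw [h0, norm_zero] at hw
      exact zero_ne_one hw
    have h4 := hm (Complex.log w) (by
      rw [mem_ball_zero_iff]
      have h5 : Complex.log w = (Complex.arg w : ℂ) * Complex.I := by
        apply Complex.ext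
        · rw [Complex.log_re, hw]
          simp
        · rw [Complex.log_im]
          simp
      rw [h5, norm_mul, Complex.norm_I, mul_one, Complex.norm_real, Real.norm_eq_abs]
      linarith [Complex.abs_arg_le_pi w])
    rw [hGc _ 0, ← hx, hgdef] at h4
    simp only [Complex.exp_log hw0] at h4
    rw [dist_comm]
    exact h4
  exact hbad m (hεV _ _ (key _ (hu m)) (key _ (hu' m)))

theorem necks [t : TopologicalSpace X] [CompactSpace X] [T2Space X] [ChartedSpace E X]
    [IsManifold 𝓘(ℂ, E) ω X]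
    (h : ∀ f : ℂ → X, BrodyRigid.IsBrodyCurve (E := E) f → ∀ p : ℂ, p ≠ 0 →
      (∀ z, f (z + p) = f z) → ∀ z z', f z = f z') : TorusFree.HasThinNecks E X := by
  obtain ⟨m, hm, -⟩ := exists_metric (E := E) (X := X)
  subst hm
  exact necks_metric h

end metric

end Pool.Agent.TFR
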